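import Pool.Agent.W896.FD.HamG

/-!
# Hamiltonicity needs exponential size on circuits of linear formal degree

Definitions: `Gate`, `Circ`, `Circ.Val`, `IsDeg` in `Pool/Agent/W896/RK/Defs.lean`; `bits` in
`Pool/Agent/W896/FD/Graph.lean`.
-/

set_option autoImplicit false

namespace Pool.Agent.Results.MP_6b3410_lc.FormalDegree

open Pool.Agent.W896.RK Pool.Agent.W896.FD

/-- Let `U r` (`r` in a finite nonempty set) be Boolean circuits on the bits of a graph with `n`
vertices, which accept only Hamiltonian graphs, and let every Hamiltonian graph be accepted by at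
least a `2 ^ (-⌊n / 2 ^ (60 (k + 1))⌋)` fraction of them. If for each `U r` the formal degrees in
the bits sum up to at most `k n ^ 2`, then some `U r` has `s` gates with
`n ≤ 2 ^ (60 (k + 1)) (⌊log₂ s⌋ + 1)`. -/
theorem result (k n : ℕ) (R : Type) [Fintype R] [Nonempty R] (U : R → Circ (Sym2 (Fin n)))
    (hU : ∀ r (G : SimpleGraph (Fin n)), (U r).Val (bits G) (U r).out → G.IsHamiltonian)
    (hc : ∀ G : SimpleGraph (Fin n), G.IsHamiltonian →
      Nat.card R ≤ 2 ^ (n / 2 ^ (60 * (k + 1))) * Nat.card {r // (U r).Val (bits G) (U r).out})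
    (hd : ∀ r, ∃ d : (U r).G → Sym2 (Fin n) → ℕ, IsDeg (U r) id d ∧
      ∑ e, d (U r).out e ≤ k * n ^ 2) :
    ∃ r, n ≤ 2 ^ (60 * (k + 1)) * (Nat.log 2 (Fintype.card (U r).G) + 1) :=
  Ham.ham_final k n R U hU hc hd

end Pool.Agent.Results.MP_6b3410_lc.FormalDegree
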