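import Pool.Agent.W969.MC.Ham5

/-!
Monotone circuits for Hamiltonicity: the exponent 2/3.

Monotone circuits that decide whether a graph with `n` vertices has a Hamilton cycle need size
`exp (n ^ (2/3 - ε))`. The bound holds in a stronger model: the circuits compute with real numbers,
their monotone gates compute arbitrary nondecreasing real functions of two arguments (Pudlák's
model), and there may also be some arbitrary further gates, for instance up to `δ log n` NOT gates.

The proof: `M` constraints, each on `a` of `m = M / 2` variables with values in an alphabet with
`q = 2 ^ t` letters, on a sparse expanding hypergraph (two families of permutations, so that every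
variable is in exactly two constraints for each position). The constraint number `i` is an arbitrary
set of tuples `X i`. The function is: is there an assignment of the variables that satisfies all
constraints. It is monotone in the `M q ^ a` bits (is the tuple `σ` in `X i`). It embeds into
Hamiltonicity on `M q ^ (a / 2)` vertices, up to logarithmic factors: the gadget (of the starting
files `H545R2`) has a ladder for each bit of each variable, which the cycle passes in one of two ways
(modes), and a leaf for each constraint `i`, each half of the positions and each partial tuple; a
leaf can be visited from a ladder if the partial tuple disagrees with the bit of this ladder, so the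
leaves that agree with the assignment have to be visited by a path through the leaves; the bit of
the tuple `σ` of the constraint `i` is the edge between the leaves for the two halves of `σ`. So
there are only `M q ^ (a / 2)` vertices for `M q ^ a` tuples. With further ladders and leaves the
cycle can select one of several copies of the sets `X`.

The lower bound for the circuits is that of `MP_8a52c3_lc.MonotoneTwoThirds`.
-/

namespace Pool.Agent.Results.MP_6b3410_lc.HMonotoneTwoThirds

/-- A real circuit with the input bits `Inp` and the gates `0, ..., s - 1`. Gate `i` has `w i`
inputs, namely `a i j`, each an input bit (`0` or `1`) or an earlier gate, and its value on the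
input `x` is `val x i`. The gates outside `T` compute nondecreasing functions of at most two real
numbers. The output of a gate `i` in `T` depends in an arbitrary way on the bits that tell whether
`θ i j` is at most the `j`-th input (a NOT gate, for instance). The circuit accepts if the value of
gate `out` is at least `τ`. -/
structure RealCircuit (Inp : Type) where
  s : ℕ
  T : Finset (Fin s)
  w : Fin s → ℕ
  a : (i : Fin s) → Fin (w i) → Inp ⊕ Fin s
  op : (i : Fin s) → (Fin (w i) → ℝ) → ℝ
  θ : (i : Fin s) → Fin (w i) → ℝ
  val : (Inp → Bool) → Fin s → ℝ
  out : Fin s
  τ : ℝ
  earlier : ∀ i j k, a i j = Sum.inr k → k < i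
  mono : ∀ i ∉ T, w i ≤ 2 ∧ Monotone (op i)
  free : ∀ i ∈ T, ∀ z z' : Fin (w i) → ℝ, (∀ j, θ i j ≤ z j ↔ θ i j ≤ z' j) → op i z = op i z'
  spec : ∀ x i, val x i = op i (fun j =>
    Sum.elim (fun p => if x p = true then (1 : ℝ) else 0) (val x) (a i j))

/-- The size: the number of gates plus the number of inputs of the gates in `T`. -/
def RealCircuit.size {Inp : Type} (C : RealCircuit Inp) : ℕ := C.s + ∑ i ∈ C.T, C.w i

/-- The product of the numbers `w i + 1` over the gates in `T`. It is `1` for monotone circuits and
`2 ^ t` if `T` consists of `t` NOT gates. -/
def RealCircuit.freedom {Inp : Type} (C : RealCircuit Inp) : ℕ := ∏ i ∈ C.T, (C.w i + 1)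

/-- The graph on the vertices `0, ..., n - 1` given by the bits `x` of the pairs of vertices. -/
def graph {n : ℕ} (x : {e : Finset (Fin n) // e.card = 2} → Bool) : SimpleGraph (Fin n) where
  Adj u v := ∃ h : u ≠ v, x ⟨{u, v}, Finset.card_pair h⟩ = true
  symm := (Pool.Agent.W969.MC.grf x).symm
  loopless := (Pool.Agent.W969.MC.grf x).loopless

/-- For all `ε > 0` there are `δ > 0` and `n1` such that for all `n ≥ n1` every real circuit that
decides whether a graph with `n` vertices has a Hamilton cycle, and whose number `freedom` is at
most `n ^ δ`, has size at least `exp (n ^ (2 / 3 - ε))`. -/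
theorem result (ε : ℝ) (hε : 0 < ε) :
    ∃ δ : ℝ, 0 < δ ∧ ∃ n1 : ℕ, ∀ n : ℕ, n1 ≤ n →
      ∀ C : RealCircuit {e : Finset (Fin n) // e.card = 2},
        (∀ x, C.τ ≤ C.val x C.out ↔ (graph x).IsHamiltonian) → (C.freedom : ℝ) ≤ (n : ℝ) ^ δ →
        Real.exp ((n : ℝ) ^ ((2 : ℝ) / 3 - ε)) ≤ (C.size : ℝ) := by
  obtain ⟨δ, hδ, n1, H⟩ := Pool.Agent.W969.MC.ham_main ε hε
  refine ⟨δ, hδ, n1, ?_⟩
  intro n hn C hC hfree
  exact H n hn C.earlier C.mono C.free C.spec C.out C.τ some hC hfree

end Pool.Agent.Results.MP_6b3410_lc.HMonotoneTwoThirds
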