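import Pool.Agent.W952.LTm

set_option autoImplicit false

/-! # Hamiltonicity needs linear space in linear time

For every `k` there is a `D` such that a deterministic branching program with fewer than
`2 ^ (n ^ 2 / D)` nodes that decides Hamiltonicity of the graphs with `n` vertices makes more than
`k n ^ 2` queries on some non-Hamiltonian graph. There is no restriction on the order or on the
repetition of the queries, and only the lengths of the computations on inputs count (not of the
paths of the program). In the number `N` of the input bits: time `k N` requires `2 ^ (c_k N)` nodes,
that is, space `c_k N`, which is optimal up to the constant `c_k`.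

Proof. On `N' ≥ n ^ 2 / (5 * 10 ^ 9)` pairs of vertices (the factor does not depend on `k`) and
their complements we put variables indexed by a number `t < p ^ 2` (`p` a large prime), an element
`κ` of a torus and two elements `a, b` of a large torus. A check is given by `κ, a, b`, three words
in the Gabber-Galil maps, a sum `s` of a set of `4 p` sums and a type; it is the quadratic form
`∑ x (t, κ, a, b) x (t', u κ, v a, w b)` over the `t, t'` with `pos t + pos t' = s`. There are at
most `ε N'` checks, so that they are all zero for a fraction `2 ^ (- 2 ε N')` of all `x` (minimum
distance of Reed-Muller codes). No large rectangle lies in this set, by the order of the indices and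
by expansion. The rectangles exist by the theorem in `H554R2/Lin` if the program is small and fast.

The gadget: a graph with a Hamiltonian cycle if and only if some check is not zero. The cycle reads
`2 p ^ 2` entries of two tables whose pairs make up a constant fraction (not depending on `k`, `p`)
of all pairs of vertices. It could permute the ends of the entries it reads; this is prevented since
the entries read together form an induced matching in the graph of the tables, which is a dense
bipartite graph that is a union of induced matchings: `x ~ y` for `x, y ∈ [L] ^ L` if they agree in
exactly one place. -/

namespace Pool.Agent.Results.MP_6b3410_lc.LinearTimePrograms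

open Pool.Agent.H554R2.Coin

/-- `x e` tells for each pair `e` of vertices whether it is joined in the graph `G`. -/
theorem result (k : ℕ) : ∃ D : ℕ, 0 < D ∧ ∀ n ≥ D, ∀ P : BP (Sym2 (Fin n)) Bool,
    Fintype.card P.State < 2 ^ (n ^ 2 / D) →
    (∀ (G : SimpleGraph (Fin n)) (x : Sym2 (Fin n) → Bool), (∀ e, x e = true ↔ e ∈ G.edgeSet) →
      ∀ l, P.Comp x l false → ¬ G.IsHamiltonian) →
    ∃ (G : SimpleGraph (Fin n)) (x : Sym2 (Fin n) → Bool), (∀ e, x e = true ↔ e ∈ G.edgeSet) ∧
      ¬ G.IsHamiltonian ∧ ∀ l, P.Comp x l false → k * n ^ 2 < l.length :=
  Pool.Agent.W952.LT.main k

end Pool.Agent.Results.MP_6b3410_lc.LinearTimePrograms
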