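import Pool.Agent.W896.HB.HamStack

/-!
# Hamiltonicity on machines with a stack: a trade-off between head movement and memory

The model is a non-uniform nondeterministic program with `k` two-way heads on the adjacency matrix,
`s` nodes (a memory of `log s` bits) and a stack (pushdown store) of unlimited height; the number
of steps is unlimited too. By the non-uniform version of Cook's theorem (1971) Hamiltonicity has
networks of polynomial size if and only if it is decided by (deterministic) programs of this kind
with polynomially many nodes. The only resource that is bounded here, apart from the number of the
nodes, is the way `T` of the heads on the input, which consists of the adjacency matrix, written row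
by row. The theorem says `T * log s ≥ c n ^ 3` for graphs with `n` vertices, both for the Hamiltonian
and for the non-Hamiltonian graphs. So programs with polynomially many nodes have to move their heads
over `Ω (n ^ 3 / log n)` cells, while the input has `n ^ 2` cells.

Proof. For machines with little head movement we use the number on the forehead method with the
generalised inner product (Babai, Nisan and Szegedy), as in our results on satisfiability and on
isomorphism (`MP_8a52c3_lc` and `MP_128e7d_lc`, `StackTradeoff`). By Barrington's commutators the
conjunction of `2 k + 1` bits becomes a word over the symmetric group of degree five whose value is
an involution or trivial; the product of these words for all columns depends on the parity of the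
columns of ones only. The braid with five strands which is made from these permutations is closed in
such a way that the end of the strand `a` is joined to the beginning of the strand `a + 1`: if the
product is trivial then this is a Hamiltonian cycle; if it is the involution `(0 1) (2 3)` then the
strand which begins at `1` ends at `0` and is closed to a cycle of its own, so that the graph is not
connected.
-/

set_option autoImplicit false

namespace Pool.Agent.Results.MP_6b3410_lc.StackTradeoff

open Pool.Agent.W896.HP Pool.Agent.W896.HB

/-- For every number `k` of heads there is a constant `D` such that for all `n` and `T`, for `Q` the
Hamiltonian, or the non-Hamiltonian, graphs with `n` vertices, and for all finite families `U r` of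
nondeterministic programs with `k` heads and a stack, whose input is the adjacency matrix: if no
`U r` accepts a graph outside `Q`, and every graph in `Q` is accepted by at least a
`2 ^ (- ⌊n / D⌋)` fraction of the `U r` in a computation in which the total way of the heads is at
most `T`, then some `U r`, with `s` nodes, satisfies `n ^ 3 ≤ D (T + n ^ 2) (⌊log₂ s⌋ + 1)`. -/
theorem result (k : ℕ) : ∃ D : ℕ, 0 < D ∧ ∀ (n T : ℕ) (Q : SimpleGraph (Fin n) → Prop),
    ((Q = fun G => G.IsHamiltonian) ∨ (Q = fun G => ¬ G.IsHamiltonian)) →
    ∀ (R : Type) [Fintype R] [Nonempty R] (U : R → Prog (Fin k) (Fin n × Fin n)),
      (∀ r G l, (U r).Acc (mat G) l → Q G) →
      (∀ G, Q G → Nat.card R ≤ 2 ^ (n / D) *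
        Nat.card {r // ∃ l, (U r).Acc (mat G) l ∧ travel cellAt l ≤ T}) →
      ∃ r, n ^ 3 ≤ D * ((T + n ^ 2) * (Nat.log 2 (Fintype.card (U r).State) + 1)) :=
  ham_stack k

end Pool.Agent.Results.MP_6b3410_lc.StackTradeoff
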