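import Pool.Agent.W953.NW.Graph

/-!
# Hamiltonicity on few edge counts, or with all but few of `log N` NOT gates

On the graphs with exactly `m` edges negations do not help to decide Hamiltonicity (Berkowitz,
Valiant), and `⌈log (N + 1)⌉` NOT gates are enough on all graphs, `N = n (n - 1) / 2` (Markov,
Fischer). Hence the existence of polynomial-size circuits is equivalent to the existence of
polynomial-size circuits without NOT gates that are only correct for one number of edges, and to the
existence of polynomial-size circuits with that many NOT gates. Here it is shown that it is also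
equivalent to the existence of polynomial-size circuits without NOT gates that are correct for any
constant number of consecutive numbers of edges, and to the existence of polynomial-size circuits
with `log N - K` NOT gates, for every constant `K`; for circuits of size `2 ^ O(D)`, to the same for
`w D / log n` consecutive numbers of edges and for `log N - log (D / log n) - K` NOT gates.

The main step: let `g` agree with the monotone function `f` on the slices `k, ..., k + w` and be
`0` below, and let `h` agree with `f` on the slice `k + w + 1` and be `0` below. Then the function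
`h(x) ∨ Th_{N - k - w} (g (x with x_1 := 0), ..., g (x with x_N := 0))` agrees with `f` on all
these slices, and it is `0` below them.
-/

set_option autoImplicit false

namespace Pool.Agent.Results.MP_6b3410_lc.ZFewEdgeCounts

open Pool.Agent.H540R2

variable {n : ℕ}

/-- a numbering of the pairs of vertices -/
noncomputable def pairNo (n : ℕ) : {p : Fin n × Fin n // p.1 < p.2} ≃ Fin (n.choose 2) :=
  Fintype.equivFinOfCardEq (W953.NW.card_pairs n)

/-- the graph whose edges are the pairs with true bits -/
def graph (x : Fin (n.choose 2) → Bool) : SimpleGraph (Fin n) :=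
  SimpleGraph.fromRel (fun i j => ∃ h : i < j, x (pairNo n ⟨(i, j), h⟩) = true)

/-- the number of edges of the graph -/
def edges (x : Fin (n.choose 2) → Bool) : ℕ := (Finset.univ.filter (fun e => x e = true)).card

/-- Hamiltonicity has circuits (with NOT gates) of size `2 ^ O(D n)`. -/
def Circuits (D : ℕ → ℕ) : Prop :=
  ∃ c : ℕ, ∀ n ≥ 2, ∃ C : Circuit (n.choose 2), C.size ≤ 2 ^ (c * D n) ∧
    ∀ x, (C.eval x = true ↔ (graph x).IsHamiltonian)

/-- Hamiltonicity has circuits of size `2 ^ O(D n)` with at most `log N - K n` NOT gates. -/
def FewNots (D K : ℕ → ℕ) : Prop :=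
  ∃ c : ℕ, ∀ n ≥ 2, ∃ C : Circuit (n.choose 2), C.nots ≤ Nat.log 2 (n.choose 2) - K n ∧
    C.size ≤ 2 ^ (c * D n) ∧ ∀ x, (C.eval x = true ↔ (graph x).IsHamiltonian)

/-- For all `m` there is a circuit without NOT gates, of size `2 ^ O(D n)`, that decides
Hamiltonicity on all graphs with at least `m` and at most `m + w n` edges. -/
def FewCounts (D w : ℕ → ℕ) : Prop :=
  ∃ c : ℕ, ∀ n ≥ 2, ∀ m, ∃ C : Circuit (n.choose 2), C.Monotone ∧ C.size ≤ 2 ^ (c * D n) ∧
    ∀ x, m ≤ edges x → edges x ≤ m + w n → (C.eval x = true ↔ (graph x).IsHamiltonian)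

/-- Q1 asks for circuits of polynomial size, that is, of size `2 ^ O(log n)`. If `D n ≥ log n` for
all `n ≥ 2`, the following are equivalent. (a) Hamiltonicity has circuits of size `2 ^ O(D n)`.
(b) For every constant `K` it has such circuits with at most `log N - log (D n / log n) - K` NOT
gates, `N = n (n - 1) / 2`. (c) For some function `K` it has such circuits with at most
`log N - K n` NOT gates. (d) For every constant `w` there are circuits of size `2 ^ O(D n)` without
NOT gates that decide it for any `w (D n / log n) + 1` consecutive numbers of edges. (e) For some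
function `w` there are circuits of size `2 ^ O(D n)` without NOT gates that decide it for any
`w n + 1` consecutive numbers of edges. -/
theorem result :
    ((∃ k : ℕ, ∀ n ≥ 2, ∃ C : Circuit (n.choose 2), C.size ≤ n ^ k ∧
      ∀ x, (C.eval x = true ↔ (graph x).IsHamiltonian)) ↔ Circuits (Nat.log 2)) ∧
    ∀ D : ℕ → ℕ, (∀ n ≥ 2, Nat.log 2 n ≤ D n) →
      List.TFAE [Circuits D,
        ∀ K : ℕ, FewNots D (fun n => Nat.log 2 (D n / Nat.log 2 n) + K),
        ∃ K : ℕ → ℕ, FewNots D K,
        ∀ w : ℕ, FewCounts D (fun n => w * (D n / Nat.log 2 n)),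
        ∃ w : ℕ → ℕ, FewCounts D w] := by
  have hP : ∀ (n : ℕ) (x y : Fin (n.choose 2) → Bool), (∀ i, x i ≤ y i) →
      (graph x).IsHamiltonian → (graph y).IsHamiltonian := by
    intro n x y hxy h
    refine h.mono ?_
    intro i j hij
    rw [graph, SimpleGraph.fromRel_adj] at hij ⊢
    refine ⟨hij.1, ?_⟩
    rcases hij.2 with ⟨h, h'⟩ | ⟨h, h'⟩
    · have := hxy (pairNo n ⟨(i, j), h⟩)
      rw [h'] at this
      exact Or.inl ⟨h, Bool.eq_true_of_true_le this⟩
    · have := hxy (pairNo n ⟨(j, i), h⟩)
      rw [h'] at this
      exact Or.inr ⟨h, Bool.eq_true_of_true_le this⟩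
  refine ⟨?_, fun D hD => (List.tfae_cons_cons.mp
    (W953.NW.prop_tfae (P := fun n x => (graph x).IsHamiltonian) (D := D) hP hD)).2⟩
  exact W953.NW.poly_iff (P := fun n s => ∃ C : Circuit (n.choose 2), C.size ≤ s ∧
    ∀ x, (C.eval x = true ↔ (graph x).IsHamiltonian))
    (fun n s t hst ⟨C, h1, h2⟩ => ⟨C, h1.trans hst, h2⟩)

end Pool.Agent.Results.MP_6b3410_lc.ZFewEdgeCounts
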