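import Pool.Agent.W952.FBound

set_option autoImplicit false

/-! # Formulas over the full binary basis for Hamiltonicity

A formula over the full binary basis (leaves are variables and constants, every inner node computes
an arbitrary function of two bits, negations are free) that decides Hamiltonicity of the graphs with
`n` vertices has at least `c n ^ 4 / log n` leaves, with `c = 10 ^ (-12)`. In the number
`N = n (n - 1) / 2` of the input bits this is of the order `N ^ 2 / log N`, the best lower bound
known for this basis and any explicit function.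

Proof: `(n / 3) ⌊n / (12 g)⌋` disjoint blocks of `8 g` pairs, `4 ^ g ≥ n / 732`, such that all
`2 ^ (2 ^ (4 g))` functions of `4 g` bits are subfunctions on each block: for every table of
`16 ^ g` bits the pairs outside the block can be fixed such that the graph is Hamiltonian if and
only if the bit of the table whose address is given by the block is `1`. -/

namespace Pool.Agent.Results.MP_6b3410_lc.ZFormulaSize

open Pool.Agent.W952

/-- `x e` tells for each pair `e` of vertices whether it is joined in the graph. -/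
theorem result (n : ℕ) (hn : 3 ≤ n) (φ : Formula (Sym2 (Fin n)))
    (h : ∀ (G : SimpleGraph (Fin n)) (x : Sym2 (Fin n) → Bool),
      (∀ e, x e = true ↔ e ∈ G.edgeSet) → (φ.eval x = true ↔ G.IsHamiltonian)) :
    n ^ 4 ≤ 10 ^ 12 * (Nat.log 2 n * φ.leaves) := by
  have hD : DecX n φ.eval := h
  rcases Nat.lt_or_ge n 732 with hs | hs
  · have h1 : 0 < φ.leaves := by
      rw [Nat.pos_iff_ne_zero]
      intro h0
      rw [Formula.leaves_eq_leavesIn] at h0
      apply hD.not_const hn
      intro x y
      have := Formula.eval_congr φ h0 x y x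
      rwa [Finset.piecewise_univ, Finset.piecewise_univ] at this
    have h2 : 1 ≤ Nat.log 2 n := by
      apply (Nat.le_log_iff_pow_le (by norm_num) (by omega)).mpr
      omega
    have h3 : n ^ 4 ≤ 732 ^ 4 := Nat.pow_le_pow_left hs.le 4
    have h4 : 1 ≤ Nat.log 2 n * φ.leaves := Nat.mul_pos h2 h1
    calc n ^ 4 ≤ 732 ^ 4 := h3
      _ ≤ 10 ^ 12 * 1 := by norm_num
      _ ≤ 10 ^ 12 * (Nat.log 2 n * φ.leaves) := Nat.mul_le_mul_left _ h4
  · obtain ⟨g, hg, h1, h2, h3⟩ := choice hs
    have h4 := formula_bound hg h1 φ hD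
    have h5 := blocks_many hg h1
    have h6 : n ^ 2 ≤ 732 ^ 2 * 2 ^ (4 * g) := by
      calc n ^ 2 ≤ (732 * 4 ^ g) ^ 2 := Nat.pow_le_pow_left h2 2
        _ = 732 ^ 2 * 2 ^ (4 * g) := by
          rw [mul_pow, ← pow_mul, show (4 : ℕ) = 2 ^ 2 by norm_num, ← pow_mul]
          congr 2
          ring
    generalize 2 ^ (4 * g) = Y at *
    generalize n / 3 * (n / 3 / (4 * g)) = Z at *
    generalize φ.leaves = L at *
    generalize Nat.log 2 n = ℓ at *
    calc n ^ 4 = n ^ 2 * n ^ 2 := by ring
      _ ≤ (732 ^ 2 * Y) * (128 * g * Z) := Nat.mul_le_mul h6 h5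
      _ = 732 ^ 2 * 64 * ((2 * g) * (Z * Y)) := by ring
      _ ≤ 732 ^ 2 * 64 * (ℓ * (4 * L)) :=
          Nat.mul_le_mul_left _ (Nat.mul_le_mul h3 h4)
      _ = 732 ^ 2 * 256 * (ℓ * L) := by ring
      _ ≤ 10 ^ 12 * (ℓ * L) := Nat.mul_le_mul_right _ (by norm_num)

end Pool.Agent.Results.MP_6b3410_lc.ZFormulaSize
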