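import Pool.Agent.W933.DD.Ham

set_option autoImplicit false

/-!
Circuits for Hamiltonicity in which the conjunctions are decomposable with respect to the edges of
a matching and the disjunctions are deterministic have exponential size or exponentially many
chains of wide negations.
-/

namespace Pool.Agent.Results.MP_6b3410_lc.ZNestedNegations

open Pool.Agent.W933.DD

theorem result (M s : ℕ) (hM : 2 ≤ M)
    (C : Circ (4 * M) s (Sym2 (Vtx (4 * M) (Fin M × Fin 8)) → Bool)) (d : Fin s → ℕ)
    (hd : C.NegDepth d) (out : Fin s)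
    (h : ∀ (x : Fin (4 * M) → Bool) (w : Sym2 (Vtx (4 * M) (Fin M × Fin 8)) → Bool),
      C.val out x w = true ↔ HasHamCycle (16 * M) (graphOf x w)) :
    225 ^ M ≤ 4 * (s * ∑ j ∈ Finset.range (d out + 1), C.nots.card.choose j) ^ 2 *
      ((4 * M + 1) * 217 ^ M) :=
  ham_bound hM C d hd out h

end Pool.Agent.Results.MP_6b3410_lc.ZNestedNegations
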